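import Pool.Agent.Y566.GQ.Ex1

/-!
# Uncountable homogeneous sets and iterated generic quantifiers
-/

set_option autoImplicit false

namespace Pool.Agent.Q312.MM

open Set Cardinal MeasureTheory Pool.Agent.TH735.QM Pool.Agent.TH735.FO Pool.Agent.Y566.GQ

/-- `r` generic quantifiers, starting with the finite set `A` -/
def It (Y : Finset ℂ → Prop) : ℕ → Finset ℂ → Prop
  | 0, A => Y A
  | r + 1, A => ¬ {x : ℂ | x ∉ A ∧ It Y r (insert x A)}.Countable

/-- homogeneous sets for a sequence of relations -/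
def Hom (Y : ℕ → Finset ℂ → Prop) (H : Set ℂ) : Prop :=
  ∀ n, ∀ A : Finset ℂ, (A : Set ℂ) ⊆ H → A.card = n → Y n A

theorem it_of_hom {Y : ℕ → Finset ℂ → Prop} {H : Set ℂ} (hH : ¬ H.Countable) (h : Hom Y H) (n : ℕ) :
    ∀ r, ∀ A : Finset ℂ, (A : Set ℂ) ⊆ H → A.card + r = n → It (Y n) r A := by
  intro r
  induction r with
  | zero =>
    intro A hA hc
    exact h n A hA (by omega)
  | succ r ih =>
    intro A hA hc hcount
    apply hH
    have h1 : H ⊆ (A : Set ℂ) ∪ {x : ℂ | x ∉ A ∧ It (Y n) r (insert x A)} := by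
      intro x hx
      by_cases hxA : x ∈ A
      · exact Or.inl hxA
      · refine Or.inr ⟨hxA, ih _ ?_ ?_⟩
        · rw [Finset.coe_insert]
          exact insert_subset hx hA
        · rw [Finset.card_insert_of_notMem hxA]
          omega
    exact (A.countable_toSet.union hcount).mono h1

/-- the union of few countable sets is small -/
theorem card_bad {H : Set ℂ} (hH : #H < 𝔠) (B : ℕ → Finset ℂ → Set ℂ)
    (hB : ∀ n, ∀ A : Finset ℂ, (A : Set ℂ) ⊆ H → (B n A).Countable) :
    #(H ∪ ⋃ p : ℕ × {A : Finset ℂ // (A : Set ℂ) ⊆ H}, B p.1 p.2.1 : Set ℂ) < 𝔠 := by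
  have hfin : #{A : Finset ℂ // (A : Set ℂ) ⊆ H} ≤ #(Finset H) := by
    classical
    refine Cardinal.mk_le_of_injective
      (f := fun A : {A : Finset ℂ // (A : Set ℂ) ⊆ H} => A.1.subtype (fun x => x ∈ H)) ?_
    rintro ⟨A, hA⟩ ⟨A', hA'⟩ h
    have h' : A.subtype (fun x => x ∈ H) = A'.subtype (fun x => x ∈ H) := h
    apply Subtype.ext
    show A = A'
    ext x
    constructor
    · intro hx
      have h1 : (⟨x, hA hx⟩ : {x // x ∈ H}) ∈ A.subtype (fun x => x ∈ H) := Finset.mem_subtype.2 hx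
      rw [h'] at h1
      exact Finset.mem_subtype.1 h1
    · intro hx
      have h1 : (⟨x, hA' hx⟩ : {x // x ∈ H}) ∈ A'.subtype (fun x => x ∈ H) := Finset.mem_subtype.2 hx
      rw [← h'] at h1
      exact Finset.mem_subtype.1 h1
  have hI : #(ℕ × {A : Finset ℂ // (A : Set ℂ) ⊆ H}) ≤ max #H ℵ₀ := by
    rw [mk_prod, lift_id, lift_id, mk_nat]
    have h1 : #{A : Finset ℂ // (A : Set ℂ) ⊆ H} ≤ max #H ℵ₀ := by
      refine hfin.trans ?_
      by_cases hi : Infinite H
      · rw [mk_finset_of_infinite]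
        exact le_max_left _ _
      · have : Finite H := not_infinite_iff_finite.1 hi
        have hc : Countable (Finset H) := inferInstance
        exact (mk_le_aleph0_iff.2 hc).trans (le_max_right _ _)
    calc ℵ₀ * #{A : Finset ℂ // (A : Set ℂ) ⊆ H} ≤ max #H ℵ₀ * max #H ℵ₀ :=
          mul_le_mul' (le_max_right _ _) h1
      _ = max #H ℵ₀ := Cardinal.mul_eq_self (le_max_right _ _)
  have hU : #(⋃ p : ℕ × {A : Finset ℂ // (A : Set ℂ) ⊆ H}, B p.1 p.2.1 : Set ℂ) ≤ max #H ℵ₀ := by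
    refine (mk_iUnion_le _).trans ?_
    have h1 : (⨆ p : ℕ × {A : Finset ℂ // (A : Set ℂ) ⊆ H}, #(B p.1 p.2.1 : Set ℂ)) ≤ ℵ₀ := by
      refine ciSup_le' fun p => ?_
      exact mk_le_aleph0_iff.2 (hB p.1 p.2.1 p.2.2).to_subtype
    calc _ ≤ max #H ℵ₀ * max #H ℵ₀ := mul_le_mul' hI (h1.trans (le_max_right _ _))
      _ = max #H ℵ₀ := Cardinal.mul_eq_self (le_max_right _ _)
  refine lt_of_le_of_lt (mk_union_le _ _) ?_
  refine Cardinal.add_lt_of_lt aleph0_le_continuum hH (lt_of_le_of_lt hU ?_)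
  exact max_lt hH aleph0_lt_continuum

/-- the extension theorem -/
theorem exists_hom {Y : ℕ → Finset ℂ → Prop}
    (hd : ∀ n r, ∀ A : Finset ℂ, A.card + (r + 1) = n → {x : ℂ | x ∉ A ∧ It (Y n) r (insert x A)}.Countable ∨
      {x : ℂ | x ∉ A ∧ It (Y n) r (insert x A)}ᶜ.Countable)
    (h0 : ∀ n, It (Y n) n ∅) : ∃ H : Set ℂ, #H = 𝔠 ∧ Hom Y H := by
  classical
  let S : Set (Set ℂ) := {H | ∀ n r, ∀ A : Finset ℂ, (A : Set ℂ) ⊆ H → A.card + r = n → It (Y n) r A}
  have hempty : (∅ : Set ℂ) ∈ S := by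
    intro n r A hA hc
    have hA' : A = ∅ := by
      rw [← Finset.coe_eq_empty]
      exact subset_empty_iff.1 hA
    subst hA'
    have : r = n := by simpa using hc
    subst this
    exact h0 r
  obtain ⟨H, -, hmax⟩ := zorn_subset_nonempty S (by
    intro c hc hchain hne
    refine ⟨⋃₀ c, ?_, fun s hs => subset_sUnion_of_mem hs⟩
    intro n r A hA hcard
    obtain ⟨t, ht, htA⟩ := DirectedOn.exists_mem_subset_of_finite_of_subset_sUnion hne hchain.directedOn
      A.finite_toSet hA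
    exact hc ht n r A htA hcard) ∅ hempty
  have hHS : H ∈ S := hmax.prop
  refine ⟨H, ?_, fun n A hA hc => hHS n 0 A hA (by omega)⟩
  refine le_antisymm ((mk_set_le H).trans (le_of_eq mk_complex)) ?_
  by_contra hlt
  rw [not_le] at hlt
  -- the bad elements
  let B : ℕ → Finset ℂ → Set ℂ := fun r A => {x : ℂ | x ∉ A ∧ It (Y (A.card + (r + 1))) r (insert x A)}ᶜ
  have hB : ∀ r, ∀ A : Finset ℂ, (A : Set ℂ) ⊆ H → (B r A).Countable := by
    intro r A hA
    have h1 := hHS (A.card + (r + 1)) (r + 1) A hA rfl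
    rcases hd (A.card + (r + 1)) r A rfl with h2 | h2
    · exact absurd h2 h1
    · exact h2
  have hbad := card_bad hlt B hB
  obtain ⟨x, hx⟩ : ∃ x : ℂ, x ∉ (H ∪ ⋃ p : ℕ × {A : Finset ℂ // (A : Set ℂ) ⊆ H}, B p.1 p.2.1 : Set ℂ) := by
    by_contra hcon
    push Not at hcon
    have h1 : (H ∪ ⋃ p : ℕ × {A : Finset ℂ // (A : Set ℂ) ⊆ H}, B p.1 p.2.1 : Set ℂ) = Set.univ :=
      eq_univ_of_forall hcon
    rw [h1, mk_univ_complex] at hbad
    exact lt_irrefl _ hbad
  have hxH : x ∉ H := fun h => hx (Or.inl h)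
  have hxB : ∀ r, ∀ A : Finset ℂ, (A : Set ℂ) ⊆ H → x ∉ A ∧ It (Y (A.card + (r + 1))) r (insert x A) := by
    intro r A hA
    by_contra hcon
    apply hx
    right
    exact mem_iUnion.2 ⟨(r, ⟨A, hA⟩), hcon⟩
  have hnew : insert x H ∈ S := by
    intro n r A hA hc
    by_cases hxA : x ∈ A
    · have h1 : ((A.erase x : Finset ℂ) : Set ℂ) ⊆ H := by
        intro y hy
        rw [Finset.coe_erase] at hy
        rcases hA hy.1 with h | h
        · exact absurd h hy.2
        · exact h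
      have h2 := (hxB r (A.erase x) h1).2
      rw [Finset.insert_erase hxA] at h2
      have h3 : (A.erase x).card + (r + 1) = n := by
        rw [Finset.card_erase_of_mem hxA]
        have : 0 < A.card := Finset.card_pos.2 ⟨x, hxA⟩
        omega
      rw [h3] at h2
      exact h2
    · refine hHS n r A ?_ hc
      intro y hy
      rcases hA hy with h | h
      · exact absurd (h ▸ hy) hxA
      · exact h
  have h1 := hmax.le_of_ge hnew (subset_insert x H)
  exact hxH (h1 (mem_insert x H))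

/-- levels of definability -/
def Lev (m k : ℕ) (Z : (Fin m → ℂ) → Finset ℂ → Prop) : Prop :=
  ∃ D : Set (Fin (m + k) → ℂ), CQ (m + k) D ∧ MeasurableSet D ∧ ∀ (s : Fin m → ℂ) (a : Fin k → ℂ),
    Function.Injective a → ((Fin.append s a : Fin (m + k) → ℂ) ∈ D ↔ Z s (Finset.univ.image a))

theorem snoc_inj {k : ℕ} {a : Fin k → ℂ} (ha : Function.Injective a) {x : ℂ} (hx : x ∉ Finset.univ.image a) :
    Function.Injective (Fin.snoc (α := fun _ => ℂ) a x : Fin (k + 1) → ℂ) := by
  intro i j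
  refine Fin.lastCases ?_ (fun i => ?_) i
  · refine Fin.lastCases ?_ (fun j => ?_) j
    · intro _
      rfl
    · intro h
      rw [Fin.snoc_last, Fin.snoc_castSucc] at h
      exact absurd (Finset.mem_image.2 ⟨j, Finset.mem_univ _, h.symm⟩) hx
  · refine Fin.lastCases ?_ (fun j => ?_) j
    · intro h
      rw [Fin.snoc_last, Fin.snoc_castSucc] at h
      exact absurd (Finset.mem_image.2 ⟨i, Finset.mem_univ _, h⟩) hx
    · intro h
      rw [Fin.snoc_castSucc, Fin.snoc_castSucc] at h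
      rw [ha h]

theorem snoc_image {k : ℕ} (a : Fin k → ℂ) (x : ℂ) :
    Finset.univ.image (Fin.snoc (α := fun _ => ℂ) a x : Fin (k + 1) → ℂ) = insert x (Finset.univ.image a) := by
  ext y
  simp only [Finset.mem_image, Finset.mem_univ, true_and, Finset.mem_insert]
  constructor
  · rintro ⟨i, hi⟩
    revert hi
    refine Fin.lastCases ?_ (fun i => ?_) i
    · intro h
      rw [Fin.snoc_last] at h
      exact Or.inl h.symm
    · intro h
      rw [Fin.snoc_castSucc] at h
      exact Or.inr ⟨i, h⟩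
  · rintro (h | ⟨i, hi⟩)
    · exact ⟨Fin.last k, by rw [Fin.snoc_last, h]⟩
    · exact ⟨Fin.castSucc i, by rw [Fin.snoc_castSucc, hi]⟩

/-- sections of a definable level -/
theorem sec_diff {m k : ℕ} {Z : (Fin m → ℂ) → Finset ℂ → Prop} {D : Set (Fin (m + (k + 1)) → ℂ)}
    (hD : ∀ (s : Fin m → ℂ) (a : Fin (k + 1) → ℂ), Function.Injective a →
      ((Fin.append s a : Fin (m + (k + 1)) → ℂ) ∈ D ↔ Z s (Finset.univ.image a)))
    (s : Fin m → ℂ) (a : Fin k → ℂ) (ha : Function.Injective a) :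
    {x : ℂ | x ∉ Finset.univ.image a ∧ Z s (insert x (Finset.univ.image a))} =
      Sec (m := m + k) D (Fin.append s a) \ (Finset.univ.image a : Finset ℂ) := by
  ext x
  simp only [mem_sdiff, Finset.mem_coe, Set.mem_ofPred_eq]
  have h1 : x ∉ Finset.univ.image a → (x ∈ Sec (m := m + k) D (Fin.append s a) ↔
      Z s (insert x (Finset.univ.image a))) := by
    intro hx
    have h2 := hD s (Fin.snoc (α := fun _ => ℂ) a x) (snoc_inj ha hx)
    rw [Fin.append_snoc, snoc_image] at h2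
    exact h2
  constructor
  · rintro ⟨h2, h3⟩
    exact ⟨(h1 h2).2 h3, h2⟩
  · rintro ⟨h2, h3⟩
    exact ⟨h3, (h1 h3).1 h2⟩

theorem count_diff {S : Set ℂ} (A : Finset ℂ) : (S \ (A : Set ℂ)).Countable ↔ S.Countable := by
  constructor
  · intro h
    refine (h.union A.countable_toSet).mono ?_
    intro x hx
    by_cases hxA : x ∈ A
    · exact Or.inr hxA
    · exact Or.inl ⟨hx, hxA⟩
  · intro h
    exact h.mono sdiff_subset

theorem Lev.step {m k : ℕ} {Z : (Fin m → ℂ) → Finset ℂ → Prop} (hZ : Lev m (k + 1) Z) :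
    Lev m k (fun s A => ¬ {x : ℂ | x ∉ A ∧ Z s (insert x A)}.Countable) := by
  obtain ⟨D, h1, h2, h3⟩ := hZ
  refine ⟨{t | ¬ (Sec (m := m + k) D t).Countable}, CQ_unc (m := m + k) h1 h2, meas_unc (m := m + k) h1 h2, ?_⟩
  intro s a ha
  show _ ↔ ¬ {x : ℂ | x ∉ Finset.univ.image a ∧ Z s (insert x (Finset.univ.image a))}.Countable
  rw [sec_diff h3 s a ha, count_diff]
  rfl

theorem Lev.dich {m k : ℕ} {Z : (Fin m → ℂ) → Finset ℂ → Prop} (hZ : Lev m (k + 1) Z) (s : Fin m → ℂ)
    (A : Finset ℂ) (hA : A.card = k) : {x : ℂ | x ∉ A ∧ Z s (insert x A)}.Countable ∨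
      {x : ℂ | x ∉ A ∧ Z s (insert x A)}ᶜ.Countable := by
  obtain ⟨D, h1, h2, h3⟩ := hZ
  subst hA
  let a : Fin A.card → ℂ := fun i => (A.equivFin.symm i : ℂ)
  have ha : Function.Injective a := fun i j h => A.equivFin.symm.injective (Subtype.ext h)
  have hA : Finset.univ.image a = A := by
    ext y
    simp only [Finset.mem_image, Finset.mem_univ, true_and]
    constructor
    · rintro ⟨i, rfl⟩
      exact (A.equivFin.symm i).2
    · intro hy
      exact ⟨A.equivFin ⟨y, hy⟩, by simp [a]⟩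
  have h4 := sec_diff h3 s a ha
  rw [hA] at h4
  rw [h4]
  rcases Sec_qm (m := m + A.card) h1 (Fin.append s a) with h5 | h5
  · left
    exact h5.mono sdiff_subset
  · right
    refine (h5.union A.countable_toSet).mono ?_
    intro x hx
    by_cases hxA : x ∈ A
    · exact Or.inr hxA
    · refine Or.inl fun hxs => hx ⟨hxs, hxA⟩

theorem Lev.it {m n : ℕ} {Y : (Fin m → ℂ) → Finset ℂ → Prop} (hY : Lev m n Y) :
    ∀ r k, k + r = n → Lev m k (fun s A => It (Y s) r A) := by
  intro r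
  induction r with
  | zero =>
    intro k hk
    have : k = n := by omega
    subst this
    exact hY
  | succ r ih =>
    intro k hk
    exact (ih (k + 1) (by omega)).step

/-- all arrangements of the elements of the finite set `A` are in `X` -/
def Arr {m n : ℕ} (X : Set (Fin (m + n) → ℂ)) (s : Fin m → ℂ) (A : Finset ℂ) : Prop :=
  ∀ x : Fin n → ℂ, Function.Injective x → (∀ i, x i ∈ A) → (Fin.append s x : Fin (m + n) → ℂ) ∈ X

theorem lev_arr {m n : ℕ} {X : Set (Fin (m + n) → ℂ)} (hX : CQ (m + n) X) (hXm : MeasurableSet X) :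
    Lev m n (Arr X) := by
  classical
  let h : Equiv.Perm (Fin n) → (Fin (m + n) → ℂ) → (Fin (m + n) → ℂ) := fun σ t =>
    Fin.append (fun i => t (Fin.castAdd n i)) (fun i => t (Fin.natAdd m (σ i)))
  have hh : ∀ σ, AnalyticOnNhd ℂ (h σ) univ := by
    intro σ t _
    refine analyticAt_pi_iff.2 fun i => ?_
    refine Fin.addCases (fun j => ?_) (fun j => ?_) i
    · have : (fun t => h σ t (Fin.castAdd n j)) = fun t : Fin (m + n) → ℂ => t (Fin.castAdd n j) := by
        funext t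
        simp only [h, Fin.append_left]
      rw [this]
      exact (ContinuousLinearMap.proj (R := ℂ) (φ := fun _ : Fin (m + n) => ℂ) (Fin.castAdd n j)).analyticAt t
    · have : (fun t => h σ t (Fin.natAdd m j)) = fun t : Fin (m + n) → ℂ => t (Fin.natAdd m (σ j)) := by
        funext t
        simp only [h, Fin.append_right]
      rw [this]
      exact (ContinuousLinearMap.proj (R := ℂ) (φ := fun _ : Fin (m + n) => ℂ) (Fin.natAdd m (σ j))).analyticAt t
  have happ : ∀ σ (s : Fin m → ℂ) (a : Fin n → ℂ), h σ (Fin.append s a) = Fin.append s (fun i => a (σ i)) := by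
    intro σ s a
    simp only [h, Fin.append_left, Fin.append_right]
  refine ⟨⋂ σ, h σ ⁻¹' X, ?_, ?_, ?_⟩
  · have h1 : (⋂ σ, h σ ⁻¹' X) = (⋃ σ, (h σ ⁻¹' X)ᶜ)ᶜ := by
      rw [compl_iUnion]
      simp
    rw [h1]
    exact (CQ.iUnion fun σ => (hX.preimage (hh σ)).compl).compl
  · exact MeasurableSet.iInter fun σ => (continuousOn_univ.1 (hh σ).continuousOn).measurable hXm
  · intro s a ha
    rw [mem_iInter]
    constructor
    · intro h1 x hx hxA
      have h2 : ∀ i, ∃ j, a j = x i := by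
        intro i
        obtain ⟨j, -, hj⟩ := Finset.mem_image.1 (hxA i)
        exact ⟨j, hj⟩
      choose σ hσ using h2
      have hσi : Function.Injective σ := by
        intro i j hij
        apply hx
        rw [← hσ i, ← hσ j, hij]
      have h3 := h1 (Equiv.ofBijective σ (Finite.injective_iff_bijective.1 hσi))
      rw [mem_preimage, happ] at h3
      have h4 : (fun i => a ((Equiv.ofBijective σ (Finite.injective_iff_bijective.1 hσi)) i)) = x := by
        funext i
        exact hσ i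
      rw [h4] at h3
      exact h3
    · intro h1 σ
      rw [mem_preimage, happ]
      exact h1 _ (ha.comp σ.injective) (fun i => Finset.mem_image.2 ⟨σ i, Finset.mem_univ _, rfl⟩)

/-- homogeneous sets for relations on tuples -/
def HomT {m : ℕ} (X : (n : ℕ) → Set (Fin (m + n) → ℂ)) (s : Fin m → ℂ) (H : Set ℂ) : Prop :=
  ∀ (n : ℕ) (x : Fin n → ℂ), Function.Injective x → (∀ i, x i ∈ H) → (Fin.append s x : Fin (m + n) → ℂ) ∈ X n

theorem homT_iff {m : ℕ} (X : (n : ℕ) → Set (Fin (m + n) → ℂ)) (s : Fin m → ℂ) (H : Set ℂ) :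
    HomT X s H ↔ Hom (fun n => Arr (X n) s) H := by
  classical
  constructor
  · intro h n A hA _ x hx hxA
    exact h n x hx fun i => hA (hxA i)
  · intro h n x hx hxH
    refine h n (Finset.univ.image x) ?_ ?_ x hx (fun i => Finset.mem_image.2 ⟨i, Finset.mem_univ _, rfl⟩)
    · intro y hy
      obtain ⟨i, -, rfl⟩ := Finset.mem_image.1 (Finset.mem_coe.1 hy)
      exact hxH i
    · rw [Finset.card_image_of_injective _ hx, Finset.card_univ, Fintype.card_fin]

/-- **Elimination of the quantifiers of Magidor and Malitz.** -/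
theorem hom_tfae {m : ℕ} {X : (n : ℕ) → Set (Fin (m + n) → ℂ)} (hX : ∀ n, CQ (m + n) (X n))
    (hXm : ∀ n, MeasurableSet (X n)) (s : Fin m → ℂ) :
    List.TFAE [∃ H : Set ℂ, ¬ H.Countable ∧ HomT X s H, ∃ H : Set ℂ, #H = 𝔠 ∧ HomT X s H,
      ∀ n, It (Arr (X n) s) n ∅] := by
  tfae_have 2 → 1 := by
    rintro ⟨H, h1, h2⟩
    refine ⟨H, ?_, h2⟩
    rw [← le_aleph0_iff_set_countable, h1, not_le]
    exact aleph0_lt_continuum
  tfae_have 1 → 3 := by
    rintro ⟨H, h1, h2⟩ n
    exact it_of_hom h1 ((homT_iff X s H).1 h2) n n ∅ (by simp) (by simp)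
  tfae_have 3 → 2 := by
    intro h
    obtain ⟨H, h1, h2⟩ := exists_hom (Y := fun n => Arr (X n) s) (by
      intro n r A hA
      have h3 := (lev_arr (hX n) (hXm n)).it r (A.card + 1) (by omega)
      exact Lev.dich h3 s A rfl) h
    exact ⟨H, h1, (homT_iff X s H).2 h2⟩
  tfae_finish

theorem append_zero {m : ℕ} (s : Fin m → ℂ) (a : Fin 0 → ℂ) : (Fin.append s a : Fin (m + 0) → ℂ) = s := by
  funext i
  exact Fin.append_left s a i

theorem it_lev {m n : ℕ} {X : Set (Fin (m + n) → ℂ)} (hX : CQ (m + n) X) (hXm : MeasurableSet X) :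
    CQ m {s | It (Arr X s) n ∅} ∧ MeasurableSet {s | It (Arr X s) n ∅} := by
  obtain ⟨D, h1, h2, h3⟩ := (lev_arr hX hXm).it n 0 (by omega)
  have h4 : {s | It (Arr X s) n ∅} = D := by
    ext s
    have h5 := h3 s Fin.elim0 (fun i => i.elim0)
    rw [append_zero] at h5
    have h6 : Finset.univ.image (Fin.elim0 : Fin 0 → ℂ) = ∅ := by
      simp
    rw [h6] at h5
    exact h5.symm
  rw [h4]
  exact ⟨h1, h2⟩

/-- the quantifier preserves Borel sets with the curve condition -/
theorem CQ_hom {m : ℕ} {X : (n : ℕ) → Set (Fin (m + n) → ℂ)} (hX : ∀ n, CQ (m + n) (X n))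
    (hXm : ∀ n, MeasurableSet (X n)) {κ : Cardinal.{0}} (hκ : ℵ₀ < κ) :
    CQ m {s | ∃ H : Set ℂ, κ ≤ #H ∧ HomT X s H} ∧ MeasurableSet {s | ∃ H : Set ℂ, κ ≤ #H ∧ HomT X s H} := by
  by_cases hc : κ ≤ 𝔠
  · have h1 : {s | ∃ H : Set ℂ, κ ≤ #H ∧ HomT X s H} = (⋃ n, {s | It (Arr (X n) s) n ∅}ᶜ)ᶜ := by
      ext s
      rw [compl_iUnion]
      simp only [compl_compl, mem_iInter, Set.mem_ofPred_eq]
      have h2 := hom_tfae hX hXm s
      constructor
      · rintro ⟨H, h3, h4⟩
        have h5 : ∃ H : Set ℂ, ¬ H.Countable ∧ HomT X s H := by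
          refine ⟨H, ?_, h4⟩
          rw [← le_aleph0_iff_set_countable, not_le]
          exact hκ.trans_le h3
        exact (h2.out 0 2).1 h5
      · intro h3
        obtain ⟨H, h4, h5⟩ := (h2.out 2 1).1 h3
        exact ⟨H, by rw [h4]; exact hc, h5⟩
    rw [h1]
    exact ⟨(CQ.iUnion fun n => (it_lev (hX n) (hXm n)).1.compl).compl,
      (MeasurableSet.iUnion fun n => (it_lev (hX n) (hXm n)).2.compl).compl⟩
  · have h1 : {s | ∃ H : Set ℂ, κ ≤ #H ∧ HomT X s H} = ∅ := by
      ext s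
      simp only [Set.mem_ofPred_eq, mem_empty_iff_false, iff_false]
      rintro ⟨H, h3, -⟩
      exact hc (h3.trans ((mk_set_le H).trans (le_of_eq mk_complex)))
    rw [h1]
    refine ⟨?_, MeasurableSet.empty⟩
    intro U _ _ γ _
    left
    simp

end Pool.Agent.Q312.MM
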