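import Pool.Agent.Q312.MM.Ext

/-!
# Indiscernible subsets of uncountable sets
-/

set_option autoImplicit false

namespace Pool.Agent.Q312.MM

open Set Cardinal MeasureTheory Pool.Agent.TH735.QM Pool.Agent.TH735.FO Pool.Agent.Y566.GQ

/-- the union of few countable sets is small -/
theorem card_bad' {H : Set ℂ} (B : ℕ → Finset ℂ → Set ℂ)
    (hB : ∀ n, ∀ A : Finset ℂ, (A : Set ℂ) ⊆ H → (B n A).Countable) :
    #(H ∪ ⋃ p : ℕ × {A : Finset ℂ // (A : Set ℂ) ⊆ H}, B p.1 p.2.1 : Set ℂ) ≤ max #H ℵ₀ := by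
  have hfin : #{A : Finset ℂ // (A : Set ℂ) ⊆ H} ≤ #(Finset H) := by
    classical
    refine Cardinal.mk_le_of_injective
      (f := fun A : {A : Finset ℂ // (A : Set ℂ) ⊆ H} => A.1.subtype (fun x => x ∈ H)) ?_
    rintro ⟨A, hA⟩ ⟨A', hA'⟩ h
    have h' : A.subtype (fun x => x ∈ H) = A'.subtype (fun x => x ∈ H) := h
    apply Subtype.ext
    show A = A'
    ext x
    constructor
    · intro hx
      have h1 : (⟨x, hA hx⟩ : {x // x ∈ H}) ∈ A.subtype (fun x => x ∈ H) := Finset.mem_subtype.2 hx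
      rw [h'] at h1
      exact Finset.mem_subtype.1 h1
    · intro hx
      have h1 : (⟨x, hA' hx⟩ : {x // x ∈ H}) ∈ A'.subtype (fun x => x ∈ H) := Finset.mem_subtype.2 hx
      rw [← h'] at h1
      exact Finset.mem_subtype.1 h1
  have hI : #(ℕ × {A : Finset ℂ // (A : Set ℂ) ⊆ H}) ≤ max #H ℵ₀ := by
    rw [mk_prod, lift_id, lift_id, mk_nat]
    have h1 : #{A : Finset ℂ // (A : Set ℂ) ⊆ H} ≤ max #H ℵ₀ := by
      refine hfin.trans ?_
      by_cases hi : Infinite H
      · rw [mk_finset_of_infinite]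
        exact le_max_left _ _
      · have : Finite H := not_infinite_iff_finite.1 hi
        have hc : Countable (Finset H) := inferInstance
        exact (mk_le_aleph0_iff.2 hc).trans (le_max_right _ _)
    calc ℵ₀ * #{A : Finset ℂ // (A : Set ℂ) ⊆ H} ≤ max #H ℵ₀ * max #H ℵ₀ :=
          mul_le_mul' (le_max_right _ _) h1
      _ = max #H ℵ₀ := Cardinal.mul_eq_self (le_max_right _ _)
  have hU : #(⋃ p : ℕ × {A : Finset ℂ // (A : Set ℂ) ⊆ H}, B p.1 p.2.1 : Set ℂ) ≤ max #H ℵ₀ := by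
    refine (mk_iUnion_le _).trans ?_
    have h1 : (⨆ p : ℕ × {A : Finset ℂ // (A : Set ℂ) ⊆ H}, #(B p.1 p.2.1 : Set ℂ)) ≤ ℵ₀ := by
      refine ciSup_le' fun p => ?_
      exact mk_le_aleph0_iff.2 (hB p.1 p.2.1 p.2.2).to_subtype
    calc _ ≤ max #H ℵ₀ * max #H ℵ₀ := mul_le_mul' hI (h1.trans (le_max_right _ _))
      _ = max #H ℵ₀ := Cardinal.mul_eq_self (le_max_right _ _)
  refine (mk_union_le _ _).trans ?_
  calc #H + _ ≤ max #H ℵ₀ + max #H ℵ₀ := add_le_add (le_max_left _ _) hU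
    _ = max #H ℵ₀ := Cardinal.add_eq_self (le_max_right _ _)

/-- the extension theorem inside an uncountable set; `Y i` is a relation for sets of `ar i` elements -/
theorem exists_hom' {Y : ℕ → Finset ℂ → Prop} {ar : ℕ → ℕ}
    (hd : ∀ i r, ∀ A : Finset ℂ, A.card + (r + 1) = ar i → {x : ℂ | x ∉ A ∧ It (Y i) r (insert x A)}.Countable ∨
      {x : ℂ | x ∉ A ∧ It (Y i) r (insert x A)}ᶜ.Countable)
    (h0 : ∀ i, It (Y i) (ar i) ∅) {H₀ : Set ℂ} (hH₀ : ¬ H₀.Countable) :
    ∃ H : Set ℂ, H ⊆ H₀ ∧ #H = #H₀ ∧ ∀ i, ∀ A : Finset ℂ, (A : Set ℂ) ⊆ H → A.card = ar i → Y i A := by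
  classical
  let S : Set (Set ℂ) := {H | H ⊆ H₀ ∧ ∀ i r, ∀ A : Finset ℂ, (A : Set ℂ) ⊆ H → A.card + r = ar i → It (Y i) r A}
  have hempty : (∅ : Set ℂ) ∈ S := by
    refine ⟨empty_subset _, ?_⟩
    intro n r A hA hc
    have hA' : A = ∅ := by
      rw [← Finset.coe_eq_empty]
      exact subset_empty_iff.1 hA
    subst hA'
    have : r = ar n := by simpa using hc
    subst this
    exact h0 n
  obtain ⟨H, -, hmax⟩ := zorn_subset_nonempty S (by
    intro c hc hchain hne
    refine ⟨⋃₀ c, ⟨sUnion_subset fun s hs => (hc hs).1, ?_⟩, fun s hs => subset_sUnion_of_mem hs⟩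
    intro n r A hA hcard
    obtain ⟨t, ht, htA⟩ := DirectedOn.exists_mem_subset_of_finite_of_subset_sUnion hne hchain.directedOn
      A.finite_toSet hA
    exact (hc ht).2 n r A htA hcard) ∅ hempty
  have hHS : H ∈ S := hmax.prop
  refine ⟨H, hHS.1, ?_, fun n A hA hc => hHS.2 n 0 A hA (by omega)⟩
  refine le_antisymm (mk_le_mk_of_subset hHS.1) ?_
  by_contra hlt
  rw [not_le] at hlt
  -- the bad elements
  let B : ℕ → Finset ℂ → Set ℂ := fun i A =>
    if A.card < ar i then {x : ℂ | x ∉ A ∧ It (Y i) (ar i - A.card - 1) (insert x A)}ᶜ else ∅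
  have hB : ∀ i, ∀ A : Finset ℂ, (A : Set ℂ) ⊆ H → (B i A).Countable := by
    intro i A hA
    by_cases hc : A.card < ar i
    · simp only [B, if_pos hc]
      have h1 := hHS.2 i (ar i - A.card - 1 + 1) A hA (by omega)
      rcases hd i (ar i - A.card - 1) A (by omega) with h2 | h2
      · exact absurd h2 h1
      · exact h2
    · simp only [B, if_neg hc]
      exact countable_empty
  have hbad := card_bad' B hB
  have hbad2 : #(H ∪ ⋃ p : ℕ × {A : Finset ℂ // (A : Set ℂ) ⊆ H}, B p.1 p.2.1 : Set ℂ) < #H₀ := by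
    refine lt_of_le_of_lt hbad (max_lt hlt ?_)
    rw [← not_le, le_aleph0_iff_set_countable]
    exact hH₀
  obtain ⟨x, hx₀, hx⟩ : ∃ x ∈ H₀, x ∉ (H ∪ ⋃ p : ℕ × {A : Finset ℂ // (A : Set ℂ) ⊆ H}, B p.1 p.2.1 : Set ℂ) := by
    by_contra hcon
    push Not at hcon
    exact absurd (mk_le_mk_of_subset hcon) (not_le.2 hbad2)
  have hxH : x ∉ H := fun h => hx (Or.inl h)
  have hxB : ∀ i, ∀ A : Finset ℂ, (A : Set ℂ) ⊆ H → A.card < ar i → It (Y i) (ar i - A.card - 1) (insert x A) := by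
    intro i A hA hc
    by_contra hcon
    apply hx
    right
    refine mem_iUnion.2 ⟨(i, ⟨A, hA⟩), ?_⟩
    show x ∈ B i A
    simp only [B, if_pos hc]
    exact fun h => hcon h.2
  have hnew : insert x H ∈ S := by
    refine ⟨insert_subset hx₀ hHS.1, ?_⟩
    intro n r A hA hc
    by_cases hxA : x ∈ A
    · have h1 : ((A.erase x : Finset ℂ) : Set ℂ) ⊆ H := by
        intro y hy
        rw [Finset.coe_erase] at hy
        rcases hA hy.1 with h | h
        · exact absurd h hy.2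
        · exact h
      have hpos : 0 < A.card := Finset.card_pos.2 ⟨x, hxA⟩
      have hce : (A.erase x).card = A.card - 1 := Finset.card_erase_of_mem hxA
      have h2 := hxB n (A.erase x) h1 (by omega)
      rw [Finset.insert_erase hxA] at h2
      have h3 : ar n - (A.erase x).card - 1 = r := by omega
      rw [h3] at h2
      exact h2
    · refine hHS.2 n r A ?_ hc
      intro y hy
      rcases hA hy with h | h
      · exact absurd (h ▸ hy) hxA
      · exact h
  have h1 := hmax.le_of_ge hnew (subset_insert x H)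
  exact hxH (h1 (mem_insert x H))

theorem measurable_append {m k : ℕ} (s : Fin m → ℂ) :
    Measurable (fun x : Fin k → ℂ => (Fin.append s x : Fin (m + k) → ℂ)) := by
  refine measurable_pi_iff.2 fun i => ?_
  refine Fin.addCases (fun j => ?_) (fun j => ?_) i
  · simp only [Fin.append_left]
    exact measurable_const
  · simp only [Fin.append_right]
    exact measurable_pi_apply j

/-- Fubini -/
theorem ae_snoc {m k : ℕ} {D : Set (Fin (m + (k + 1)) → ℂ)} (hD : MeasurableSet D) (s : Fin m → ℂ) :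
    (∀ᵐ x : Fin (k + 1) → ℂ, (Fin.append s x : Fin (m + (k + 1)) → ℂ) ∈ D) ↔
      ∀ᵐ a : Fin k → ℂ, ∀ᵐ y : ℂ, y ∈ Sec (m := m + k) D (Fin.append s a) := by
  have hmp := volume_preserving_piFinSuccAbove (fun _ : Fin (k + 1) => ℂ) (Fin.last k)
  set e := MeasurableEquiv.piFinSuccAbove (fun _ : Fin (k + 1) => ℂ) (Fin.last k) with he
  have h1 : (∀ᵐ x : Fin (k + 1) → ℂ, (Fin.append s x : Fin (m + (k + 1)) → ℂ) ∈ D) ↔
      ∀ᵐ z : ℂ × (Fin k → ℂ), (Fin.append s (e.symm z) : Fin (m + (k + 1)) → ℂ) ∈ D := by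
    constructor
    · intro h
      exact (MeasurePreserving.symm e hmp).quasiMeasurePreserving.ae h
    · intro h
      have h2 := hmp.quasiMeasurePreserving.ae h
      filter_upwards [h2] with x hx
      have h3 : e.symm (e x) = x := e.symm_apply_apply x
      rw [h3] at hx
      exact hx
  have h2 : ∀ (y : ℂ) (a : Fin k → ℂ), (Fin.append s (e.symm (y, a)) : Fin (m + (k + 1)) → ℂ) ∈ D ↔
      y ∈ Sec (m := m + k) D (Fin.append s a) := by
    intro y a
    have h3 : e.symm (y, a) = (Fin.snoc (α := fun _ => ℂ) a y : Fin (k + 1) → ℂ) := by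
      show Fin.insertNth (α := fun _ => ℂ) (Fin.last k) y a = _
      exact Fin.insertNth_last' y a
    rw [h3, Fin.append_snoc]
    rfl
  have hm : MeasurableSet {z : ℂ × (Fin k → ℂ) | (Fin.append s (e.symm z) : Fin (m + (k + 1)) → ℂ) ∈ D} :=
    ((measurable_append s).comp e.symm.measurable) hD
  rw [h1]
  have h3 : (∀ᵐ z : ℂ × (Fin k → ℂ), (Fin.append s (e.symm z) : Fin (m + (k + 1)) → ℂ) ∈ D) ↔
      ∀ᵐ y : ℂ, ∀ᵐ a : Fin k → ℂ, y ∈ Sec (m := m + k) D (Fin.append s a) := by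
    rw [Measure.volume_eq_prod, Measure.ae_prod_iff_ae_ae hm]
    refine Filter.eventually_congr (Filter.Eventually.of_forall fun y => ?_)
    refine Filter.eventually_congr (Filter.Eventually.of_forall fun a => ?_)
    exact h2 y a
  rw [h3]
  refine Measure.ae_ae_comm ?_
  have h4 : {x : ℂ × (Fin k → ℂ) | x.1 ∈ Sec (m := m + k) D (Fin.append s x.2)} =
      {z : ℂ × (Fin k → ℂ) | (Fin.append s (e.symm z) : Fin (m + (k + 1)) → ℂ) ∈ D} := by
    ext z
    exact (h2 z.1 z.2).symm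
  rw [h4]
  exact hm

theorem ae_sec {m : ℕ} {X : Set (Fin (m + 1) → ℂ)} (hX : CQ (m + 1) X) (s : Fin m → ℂ) :
    (∀ᵐ y : ℂ, y ∈ Sec X s) ↔ ¬ (Sec X s).Countable := by
  constructor
  · intro h hc
    have h1 : (volume : Measure ℂ) (Sec X s)ᶜ = 0 := h
    have h2 : (volume : Measure ℂ) (Sec X s) = 0 := hc.measure_zero _
    have h3 : (volume : Measure ℂ) univ = 0 := by
      rw [← union_compl_self (Sec X s)]
      exact measure_union_null h2 h1
    have h4 : (volume : Measure ℂ) univ ≠ 0 := by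
      simp
    exact h4 h3
  · intro h
    rcases Sec_qm hX s with h1 | h1
    · exact absurd h1 h
    · have h2 : (volume : Measure ℂ) (Sec X s)ᶜ = 0 := h1.measure_zero _
      exact h2

theorem sec_compl {m : ℕ} (X : Set (Fin (m + 1) → ℂ)) (s : Fin m → ℂ) : Sec Xᶜ s = (Sec X s)ᶜ := rfl

/-- zero-one law -/
theorem zero_one {m : ℕ} (s : Fin m → ℂ) : ∀ (k : ℕ) (D : Set (Fin (m + k) → ℂ)), CQ (m + k) D → MeasurableSet D →
    (∀ᵐ a : Fin k → ℂ, (Fin.append s a : Fin (m + k) → ℂ) ∈ D) ∨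
      (∀ᵐ a : Fin k → ℂ, (Fin.append s a : Fin (m + k) → ℂ) ∈ Dᶜ) := by
  intro k
  induction k with
  | zero =>
    intro D _ _
    by_cases h : (Fin.append s (Fin.elim0 : Fin 0 → ℂ) : Fin (m + 0) → ℂ) ∈ D
    · left
      refine Filter.Eventually.of_forall fun a => ?_
      rw [Subsingleton.elim a Fin.elim0]
      exact h
    · right
      refine Filter.Eventually.of_forall fun a => ?_
      rw [Subsingleton.elim a Fin.elim0]
      exact h
  | succ k ih =>
    intro D hD hDm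
    rcases ih {t | ¬ (Sec (m := m + k) D t).Countable} (CQ_unc (m := m + k) hD hDm)
      (meas_unc (m := m + k) hD hDm) with h | h
    · left
      rw [ae_snoc hDm]
      filter_upwards [h] with a ha
      exact (ae_sec (m := m + k) hD _).2 ha
    · right
      rw [ae_snoc hDm.compl]
      filter_upwards [h] with a ha
      have h1 : (Sec (m := m + k) D (Fin.append s a)).Countable := by
        by_contra hc
        exact ha hc
      have h2 : (volume : Measure ℂ) (Sec (m := m + k) D (Fin.append s a)) = 0 := h1.measure_zero _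
      rw [sec_compl]
      have h3 : (volume : Measure ℂ) ((Sec (m := m + k) D (Fin.append s a))ᶜ)ᶜ = 0 := by
        rw [compl_compl]
        exact h2
      exact h3

/-- levels of definability, almost everywhere -/
def LevA (m k : ℕ) (Z : (Fin m → ℂ) → Finset ℂ → Prop) (s : Fin m → ℂ) : Prop :=
  ∃ D : Set (Fin (m + k) → ℂ), CQ (m + k) D ∧ MeasurableSet D ∧ (∀ (t : Fin m → ℂ) (a : Fin k → ℂ),
    Function.Injective a → ((Fin.append t a : Fin (m + k) → ℂ) ∈ D ↔ Z t (Finset.univ.image a))) ∧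
    ∀ᵐ a : Fin k → ℂ, (Fin.append s a : Fin (m + k) → ℂ) ∈ D

theorem LevA.step {m k : ℕ} {Z : (Fin m → ℂ) → Finset ℂ → Prop} {s : Fin m → ℂ} (hZ : LevA m (k + 1) Z s) :
    LevA m k (fun s A => ¬ {x : ℂ | x ∉ A ∧ Z s (insert x A)}.Countable) s := by
  obtain ⟨D, h1, h2, h3, h4⟩ := hZ
  refine ⟨{t | ¬ (Sec (m := m + k) D t).Countable}, CQ_unc (m := m + k) h1 h2, meas_unc (m := m + k) h1 h2, ?_, ?_⟩
  · intro t a ha
    show _ ↔ ¬ {x : ℂ | x ∉ Finset.univ.image a ∧ Z t (insert x (Finset.univ.image a))}.Countable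
    rw [sec_diff h3 t a ha, count_diff]
    rfl
  · rw [ae_snoc h2] at h4
    filter_upwards [h4] with a ha
    exact (ae_sec (m := m + k) h1 _).1 ha

theorem LevA.it {m n : ℕ} {Y : (Fin m → ℂ) → Finset ℂ → Prop} {s : Fin m → ℂ} (hY : LevA m n Y s) :
    ∀ r k, k + r = n → LevA m k (fun s A => It (Y s) r A) s := by
  intro r
  induction r with
  | zero =>
    intro k hk
    have : k = n := by omega
    subst this
    exact hY
  | succ r ih =>
    intro k hk
    exact (ih (k + 1) (by omega)).step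

theorem ae_perm {m n : ℕ} {X : Set (Fin (m + n) → ℂ)} {s : Fin m → ℂ}
    (h : ∀ᵐ a : Fin n → ℂ, (Fin.append s a : Fin (m + n) → ℂ) ∈ X) (σ : Equiv.Perm (Fin n)) :
    ∀ᵐ a : Fin n → ℂ, (Fin.append s (fun i => a (σ i)) : Fin (m + n) → ℂ) ∈ X := by
  have hmp := volume_measurePreserving_piCongrLeft (fun _ : Fin n => ℂ) σ.symm
  have h1 := hmp.quasiMeasurePreserving.ae h
  filter_upwards [h1] with a ha
  have h2 : (MeasurableEquiv.piCongrLeft (fun _ : Fin n => ℂ) σ.symm) a = fun i => a (σ i) := by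
    funext i
    rw [MeasurableEquiv.coe_piCongrLeft]
    have h3 := Equiv.piCongrLeft_apply_apply (fun _ : Fin n => ℂ) σ.symm a (σ i)
    rw [Equiv.symm_apply_apply] at h3
    exact h3
  rw [h2] at ha
  exact ha

theorem levA_arr {m n : ℕ} {X : Set (Fin (m + n) → ℂ)} (hX : CQ (m + n) X) (hXm : MeasurableSet X) {s : Fin m → ℂ}
    (hs : ∀ᵐ a : Fin n → ℂ, (Fin.append s a : Fin (m + n) → ℂ) ∈ X) : LevA m n (Arr X) s := by
  classical
  let h : Equiv.Perm (Fin n) → (Fin (m + n) → ℂ) → (Fin (m + n) → ℂ) := fun σ t =>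
    Fin.append (fun i => t (Fin.castAdd n i)) (fun i => t (Fin.natAdd m (σ i)))
  have hh : ∀ σ, AnalyticOnNhd ℂ (h σ) univ := by
    intro σ t _
    refine analyticAt_pi_iff.2 fun i => ?_
    refine Fin.addCases (fun j => ?_) (fun j => ?_) i
    · have : (fun t => h σ t (Fin.castAdd n j)) = fun t : Fin (m + n) → ℂ => t (Fin.castAdd n j) := by
        funext t
        simp only [h, Fin.append_left]
      rw [this]
      exact (ContinuousLinearMap.proj (R := ℂ) (φ := fun _ : Fin (m + n) => ℂ) (Fin.castAdd n j)).analyticAt t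
    · have : (fun t => h σ t (Fin.natAdd m j)) = fun t : Fin (m + n) → ℂ => t (Fin.natAdd m (σ j)) := by
        funext t
        simp only [h, Fin.append_right]
      rw [this]
      exact (ContinuousLinearMap.proj (R := ℂ) (φ := fun _ : Fin (m + n) => ℂ) (Fin.natAdd m (σ j))).analyticAt t
  have happ : ∀ σ (s : Fin m → ℂ) (a : Fin n → ℂ), h σ (Fin.append s a) = Fin.append s (fun i => a (σ i)) := by
    intro σ s a
    simp only [h, Fin.append_left, Fin.append_right]
  refine ⟨⋂ σ, h σ ⁻¹' X, ?_, ?_, ?_, ?_⟩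
  · have h1 : (⋂ σ, h σ ⁻¹' X) = (⋃ σ, (h σ ⁻¹' X)ᶜ)ᶜ := by
      rw [compl_iUnion]
      simp
    rw [h1]
    exact (CQ.iUnion fun σ => (hX.preimage (hh σ)).compl).compl
  · exact MeasurableSet.iInter fun σ => (continuousOn_univ.1 (hh σ).continuousOn).measurable hXm
  · intro s a ha
    rw [mem_iInter]
    constructor
    · intro h1 x hx hxA
      have h2 : ∀ i, ∃ j, a j = x i := by
        intro i
        obtain ⟨j, -, hj⟩ := Finset.mem_image.1 (hxA i)
        exact ⟨j, hj⟩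
      choose σ hσ using h2
      have hσi : Function.Injective σ := by
        intro i j hij
        apply hx
        rw [← hσ i, ← hσ j, hij]
      have h3 := h1 (Equiv.ofBijective σ (Finite.injective_iff_bijective.1 hσi))
      rw [mem_preimage, happ] at h3
      have h4 : (fun i => a ((Equiv.ofBijective σ (Finite.injective_iff_bijective.1 hσi)) i)) = x := by
        funext i
        exact hσ i
      rw [h4] at h3
      exact h3
    · intro h1 σ
      rw [mem_preimage, happ]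
      exact h1 _ (ha.comp σ.injective) (fun i => Finset.mem_image.2 ⟨σ i, Finset.mem_univ _, rfl⟩)
  · have h1 : ∀ᵐ a : Fin n → ℂ, ∀ σ : Equiv.Perm (Fin n), (Fin.append s (fun i => a (σ i)) : Fin (m + n) → ℂ) ∈ X :=
      ae_all_iff.2 fun σ => ae_perm hs σ
    filter_upwards [h1] with a ha
    refine mem_iInter.2 fun σ => ?_
    rw [mem_preimage, happ]
    exact ha σ

/-- almost everywhere implies the iterated quantifier for all arrangements -/
theorem it_of_ae {m n : ℕ} {X : Set (Fin (m + n) → ℂ)} (hX : CQ (m + n) X) (hXm : MeasurableSet X) {s : Fin m → ℂ}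
    (hs : ∀ᵐ a : Fin n → ℂ, (Fin.append s a : Fin (m + n) → ℂ) ∈ X) : It (Arr X s) n ∅ := by
  obtain ⟨D, -, -, h3, h4⟩ := (levA_arr hX hXm hs).it n 0 (by omega)
  have h5 : ∃ a : Fin 0 → ℂ, (Fin.append s a : Fin (m + 0) → ℂ) ∈ D := h4.exists
  obtain ⟨a, ha⟩ := h5
  have h6 := (h3 s a (fun i => i.elim0)).1 ha
  have h7 : Finset.univ.image a = ∅ := by
    simp
  rw [h7] at h6
  exact h6

/-- **Indiscernible subsets of uncountable sets.** -/
theorem indiscernible {m ar : ℕ → ℕ} {R : (i : ℕ) → Set (Fin (m i + ar i) → ℂ)} (hR : ∀ i, CQ (m i + ar i) (R i))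
    (hRm : ∀ i, MeasurableSet (R i)) (s : (i : ℕ) → Fin (m i) → ℂ) :
    ∃ ε : ℕ → Prop, ∀ H₀ : Set ℂ, ¬ H₀.Countable → ∃ H : Set ℂ, H ⊆ H₀ ∧ #H = #H₀ ∧
      ∀ (i : ℕ) (x : Fin (ar i) → ℂ), Function.Injective x → (∀ j, x j ∈ H) →
        ((Fin.append (s i) x : Fin (m i + ar i) → ℂ) ∈ R i ↔ ε i) := by
  classical
  refine ⟨fun i => ∀ᵐ a : Fin (ar i) → ℂ, (Fin.append (s i) a : Fin (m i + ar i) → ℂ) ∈ R i, ?_⟩
  let R' : (i : ℕ) → Set (Fin (m i + ar i) → ℂ) := fun i =>
    if (∀ᵐ a : Fin (ar i) → ℂ, (Fin.append (s i) a : Fin (m i + ar i) → ℂ) ∈ R i) then R i else (R i)ᶜ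
  have hR' : ∀ i, CQ (m i + ar i) (R' i) := by
    intro i
    simp only [R']
    split_ifs
    · exact hR i
    · exact (hR i).compl
  have hRm' : ∀ i, MeasurableSet (R' i) := by
    intro i
    simp only [R']
    split_ifs
    · exact hRm i
    · exact (hRm i).compl
  have hae : ∀ i, ∀ᵐ a : Fin (ar i) → ℂ, (Fin.append (s i) a : Fin (m i + ar i) → ℂ) ∈ R' i := by
    intro i
    simp only [R']
    split_ifs with h
    · exact h
    · rcases zero_one (s i) (ar i) (R i) (hR i) (hRm i) with h1 | h1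
      · exact absurd h1 h
      · exact h1
  intro H₀ hH₀
  obtain ⟨H, h1, h2, h3⟩ := exists_hom' (Y := fun i => Arr (R' i) (s i)) (ar := ar) (by
    intro i r A hA
    have h3 := (lev_arr (hR' i) (hRm' i)).it r (A.card + 1) (by omega)
    exact Lev.dich h3 (s i) A rfl) (fun i => it_of_ae (hR' i) (hRm' i) (hae i)) hH₀
  refine ⟨H, h1, h2, fun i x hx hxH => ?_⟩
  have h4 := h3 i (Finset.univ.image x) (by
    intro y hy
    obtain ⟨j, -, rfl⟩ := Finset.mem_image.1 (Finset.mem_coe.1 hy)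
    exact hxH j) (by
    rw [Finset.card_image_of_injective _ hx, Finset.card_univ, Fintype.card_fin]) x hx
    (fun j => Finset.mem_image.2 ⟨j, Finset.mem_univ _, rfl⟩)
  simp only [R'] at h4
  split_ifs at h4 with h5
  · exact ⟨fun _ => h5, fun _ => h4⟩
  · exact ⟨fun h => absurd h h4, fun h => absurd h h5⟩

/-- no relation linearly orders an uncountable set -/
theorem no_order {m : ℕ} {R : Set (Fin (m + 2) → ℂ)} (hR : CQ (m + 2) R) (hRm : MeasurableSet R) (s : Fin m → ℂ)
    {H₀ : Set ℂ} (hH₀ : ¬ H₀.Countable) :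
    ¬ ∀ x ∈ H₀, ∀ y ∈ H₀, x ≠ y → ((Fin.append s ![x, y] : Fin (m + 2) → ℂ) ∈ R ↔
      (Fin.append s ![y, x] : Fin (m + 2) → ℂ) ∉ R) := by
  intro h
  obtain ⟨ε, hε⟩ := indiscernible (m := fun _ => m) (ar := fun _ => 2) (R := fun _ => R) (fun _ => hR) (fun _ => hRm)
    (fun _ => s)
  obtain ⟨H, h1, h2, h3⟩ := hε H₀ hH₀
  have hHc : ¬ H.Countable := by
    rw [← le_aleph0_iff_set_countable, h2, le_aleph0_iff_set_countable]
    exact hH₀
  have hinf : H.Infinite := fun hf => hHc hf.countable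
  obtain ⟨x, hx⟩ := hinf.nonempty
  obtain ⟨y, hy, hxy⟩ := hinf.exists_notMem_finset {x}
  rw [Finset.mem_singleton] at hxy
  have hinj : ∀ u v : ℂ, u ≠ v → Function.Injective ![u, v] := by
    intro u v huv i j hij
    fin_cases i <;> fin_cases j <;> simp_all
  have h4 := h3 0 ![x, y] (hinj x y (Ne.symm hxy)) (by
    intro j
    fin_cases j
    · exact hx
    · exact hy)
  have h5 := h3 0 ![y, x] (hinj y x hxy) (by
    intro j
    fin_cases j
    · exact hy
    · exact hx)
  have h6 := h x (h1 hx) y (h1 hy) (Ne.symm hxy)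
  rw [h4, h5] at h6
  by_cases he : ε 0
  · exact (h6.1 he) he
  · exact he (h6.2 he)

end Pool.Agent.Q312.MM
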